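import Pool.Agent.Lib.VK.Spec

/-!
# The prime number theorem with error `x / (log x)^B`, from `VK.SpecPNP`
-/

set_option autoImplicit false

noncomputable section

namespace Pool.Agent.Lib.LP2

open Filter Topology

/-- the prime number theorem with error `x / (log x)^B` -/
def SpecPNE : Prop := ∀ B : ℕ, ∃ x₀ : ℝ, ∀ x : ℝ, x₀ ≤ x →
  |(((Finset.Icc 1 ⌊x⌋₊).filter Nat.Prime).card : ℝ) - ∫ t in (2 : ℝ)..x, 1 / Real.log t| ≤
    x / (Real.log x) ^ B

theorem specPNE (h : Pool.Agent.Lib.VK.SpecPNP) : SpecPNE := by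
  intro B
  obtain ⟨x₀, hx₀⟩ := h
  -- `u ^ (61 B) e ^ (- u) → 0` with `u = (log x) ^ (1 / 61)`
  have h1 : Tendsto (fun x : ℝ => (Real.log x) ^ (1 / 61 : ℝ)) atTop atTop :=
    (tendsto_rpow_atTop (by norm_num)).comp Real.tendsto_log_atTop
  have h2 := (Real.tendsto_pow_mul_exp_neg_atTop_nhds_zero (61 * B)).comp h1
  have h3 : ∀ᶠ x : ℝ in atTop, ((Real.log x) ^ (1 / 61 : ℝ)) ^ (61 * B) *
      Real.exp (-(Real.log x) ^ (1 / 61 : ℝ)) ≤ 1 := by
    have := (h2.eventually (gt_mem_nhds (show (0 : ℝ) < 1 by norm_num)))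
    filter_upwards [this] with x hx
    exact le_of_lt hx
  obtain ⟨x₁, hx₁⟩ := eventually_atTop.1 h3
  refine ⟨max (max x₀ x₁) 3, fun x hx => ?_⟩
  have hxa : x₀ ≤ x := le_trans (le_max_left _ _) (le_trans (le_max_left _ _) hx)
  have hxb : x₁ ≤ x := le_trans (le_max_right _ _) (le_trans (le_max_left _ _) hx)
  have hxc : 3 ≤ x := le_trans (le_max_right _ _) hx
  have hlog : 0 < Real.log x := Real.log_pos (by linarith)
  refine (hx₀ x hxa).2.trans ?_
  have h4 := hx₁ x hxb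
  have h5 : ((Real.log x) ^ (1 / 61 : ℝ)) ^ (61 * B) = (Real.log x) ^ B := by
    have e1 : ((Real.log x) ^ (1 / 61 : ℝ)) ^ 61 = Real.log x := by
      have e2 := Real.rpow_natCast ((Real.log x) ^ (1 / 61 : ℝ)) 61
      rw [← e2, ← Real.rpow_mul hlog.le]
      norm_num
    rw [pow_mul, e1]
  rw [h5] at h4
  rw [le_div_iff₀ (pow_pos hlog B), mul_assoc]
  have h6 : Real.exp (-(Real.log x) ^ (1 / 61 : ℝ)) * (Real.log x) ^ B ≤ 1 := by
    rw [mul_comm]
    exact h4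
  have h7 : x * (Real.exp (-(Real.log x) ^ (1 / 61 : ℝ)) * (Real.log x) ^ B) ≤ x * 1 :=
    mul_le_mul_of_nonneg_left h6 (by linarith)
  linarith

end Pool.Agent.Lib.LP2
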